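import Pool.Agent.Helper54.SAW2.Stmts

set_option autoImplicit false

/-!
# Crossing parity of a lattice path with the vertical rays above a second, disjoint path
-/

namespace Pool.Agent.Helper68.SAW2

open Pool.Agent.Helper54.SAW Pool.Agent.Helper54.SAW2

theorem hc_self (x y : ℕ → ℤ) (i0 : ℕ) (c h : ℤ) : hc x y i0 i0 c h = 0 := by
  simp [hc]

open Classical in
theorem hc_succ (x y : ℕ → ℤ) (i0 i1 : ℕ) (h01 : i0 ≤ i1) (c h : ℤ) :
    hc x y i0 (i1 + 1) c h = hc x y i0 i1 c h +
      (if y (i1 + 1) = y i1 ∧ h < y i1 ∧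
        ((x i1 = c ∧ x (i1 + 1) = c + 1) ∨ (x i1 = c + 1 ∧ x (i1 + 1) = c)) then 1 else 0) := by
  unfold hc
  rw [← Finset.insert_Ico_right_eq_Ico_add_one h01, Finset.filter_insert]
  split_ifs with h1
  · rw [Finset.card_insert_of_notMem (by simp)]
  · simp

theorem hcCol : HcColS := by
  intro x y i0 i1 h01
  induction i1, h01 using Nat.le_induction with
  | base =>
    intro _ c h _
    rw [hc_self, hc_self]
    split_ifs <;> simp
  | succ i1 h01 ih =>
    intro hst c h hno
    have h1 := ih (fun i hi hi' => hst i hi (by omega)) c h (fun i hi hi' => hno i hi (by omega))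
    have h2 := hst i1 h01 (by omega)
    have h3 := hno i1 h01 (by omega)
    have h4 := hno (i1 + 1) (by omega) (by omega)
    rw [hc_succ x y i0 i1 h01, hc_succ x y i0 i1 h01]
    unfold Stp at h2
    generalize hc x y i0 i1 c h = A at *
    generalize hc x y i0 i1 (c + 1) h = B at *
    generalize x i0 = a0 at *
    generalize y i0 = b0 at *
    generalize x i1 = a1 at *
    generalize y i1 = b1 at *
    generalize x (i1 + 1) = a2 at *
    generalize y (i1 + 1) = b2 at *
    have key : (((if b2 = b1 ∧ h < b1 ∧ ((a1 = c ∧ a2 = c + 1) ∨ (a1 = c + 1 ∧ a2 = c))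
        then 1 else 0) +
        (if b2 = b1 ∧ h < b1 ∧ ((a1 = c + 1 ∧ a2 = c + 1 + 1) ∨ (a1 = c + 1 + 1 ∧ a2 = c + 1))
        then 1 else 0) +
        (if a1 = c + 1 ∧ h < b1 then 1 else 0) + (if a2 = c + 1 ∧ h < b2 then 1 else 0) : ℕ)) % 2
        = 0 := by
      rcases h2 with ⟨h5, h6⟩ | ⟨h5, h6⟩
      · have h7 : b2 ≠ b1 := by omega
        rw [if_neg (fun h => h7 h.1), if_neg (fun h => h7 h.1)]
        subst h5
        by_cases h8 : a2 = c + 1
        · by_cases h9 : h < b1
          · rw [if_pos ⟨h8, h9⟩, if_pos ⟨h8, by omega⟩]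
          · rw [if_neg (fun h => h9 h.2), if_neg (fun h => by omega)]
        · rw [if_neg (fun h => h8 h.1), if_neg (fun h => h8 h.1)]
      · subst h5
        by_cases h8 : h < b2
        · simp only [h8, true_and, and_true]
          split_ifs <;> omega
        · simp only [h8, false_and, and_false, if_false]
    omega

open Classical in
/-- above height `h` or above height `h + 1`: no difference when `(c, h + 1)` is not on the path -/
theorem hc_up_left (x y : ℕ → ℤ) (i0 i1 : ℕ) (c h : ℤ)
    (hno : ∀ i, i0 ≤ i → i ≤ i1 → ¬ (x i = c ∧ y i = h + 1)) :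
    hc x y i0 i1 c h = hc x y i0 i1 c (h + 1) := by
  unfold hc
  congr 1
  refine Finset.filter_congr fun i hi => ?_
  rw [Finset.mem_Ico] at hi
  have h1 := hno i hi.1 (by omega)
  have h2 := hno (i + 1) (by omega) (by omega)
  constructor
  · rintro ⟨h3, h4, h5⟩
    refine ⟨h3, ?_, h5⟩
    rcases h5 with h5 | h5 <;> omega
  · rintro ⟨h3, h4, h5⟩
    exact ⟨h3, by omega, h5⟩

open Classical in
/-- above height `h` or above height `h + 1`: no difference when `(c + 1, h + 1)` is not on the
path -/
theorem hc_up_right (x y : ℕ → ℤ) (i0 i1 : ℕ) (c h : ℤ)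
    (hno : ∀ i, i0 ≤ i → i ≤ i1 → ¬ (x i = c + 1 ∧ y i = h + 1)) :
    hc x y i0 i1 c h = hc x y i0 i1 c (h + 1) := by
  unfold hc
  congr 1
  refine Finset.filter_congr fun i hi => ?_
  rw [Finset.mem_Ico] at hi
  have h1 := hno i hi.1 (by omega)
  have h2 := hno (i + 1) (by omega) (by omega)
  constructor
  · rintro ⟨h3, h4, h5⟩
    refine ⟨h3, ?_, h5⟩
    rcases h5 with h5 | h5 <;> omega
  · rintro ⟨h3, h4, h5⟩
    exact ⟨h3, by omega, h5⟩

theorem transport : TransportS := by
  intro x y i0 i1 h01 hst u v j0 j1 hj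
  induction j1, hj using Nat.le_induction with
  | base => intros; rfl
  | succ j1 hj ih =>
    intro hst' lo hi hlh he0 he1 hno
    rw [ih (fun j h h' => hst' j h (by omega)) lo hi (fun j h h' => hlh j h (by omega)) he0 he1
      (fun i j h1 h2 h3 h4 => hno i j h1 h2 h3 (by omega))]
    have h1 := hst' j1 hj (by omega)
    have h2 := hlh j1 hj (by omega)
    have h3 := hlh (j1 + 1) (by omega) (by omega)
    have h4 := fun i (h : i0 ≤ i) (h' : i ≤ i1) => hno i j1 h h' hj (by omega)
    have h5 := fun i (h : i0 ≤ i) (h' : i ≤ i1) => hno i (j1 + 1) h h' (by omega) (by omega)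
    rcases h1 with ⟨h6, h7 | h7⟩ | ⟨h6, h7 | h7⟩
    · rw [h6, h7]
      congr 1
      refine hc_up_right x y i0 i1 _ _ fun i hi hi' => ?_
      have := h5 i hi hi'
      rw [h6, h7] at this
      intro h
      exact this ⟨by omega, h.2⟩
    · rw [h6, h7]
      congr 1
      have h8 := hc_up_right x y i0 i1 (u j1 - 1) (v j1 - 1) (fun i hi hi' => by
        have := h4 i hi hi'
        intro h
        exact this ⟨by omega, by omega⟩)
      rw [h8, sub_add_cancel]
    · rw [h6, h7]
      have h8 := hcCol x y i0 i1 h01 hst (u j1 - 1) (v j1) (fun i hi hi' => by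
        have := h4 i hi hi'
        intro h
        exact this ⟨by omega, h.2⟩)
      rw [if_neg (by omega), if_neg (by omega)] at h8
      have e1 : u j1 - 1 + 1 = u j1 + 1 - 1 := by ring
      rw [e1] at h8
      omega
    · rw [h6, h7]
      have h8 := hcCol x y i0 i1 h01 hst (u j1 - 1 - 1) (v j1) (fun i hi hi' => by
        have := h5 i hi hi'
        rw [h6, h7] at this
        intro h
        exact this ⟨by omega, h.2⟩)
      rw [if_neg (by omega), if_neg (by omega)] at h8
      have e1 : u j1 - 1 - 1 + 1 = u j1 - 1 := by ring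
      rw [e1] at h8
      omega

theorem transportR : TransportRS := by
  intro x y i0 i1 h01 hst u v j0 j1 hj
  induction j1, hj using Nat.le_induction with
  | base => intros; rfl
  | succ j1 hj ih =>
    intro hst' lo hi hlh he0 he1 hno
    rw [ih (fun j h h' => hst' j h (by omega)) lo hi (fun j h h' => hlh j h (by omega)) he0 he1
      (fun i j h1 h2 h3 h4 => hno i j h1 h2 h3 (by omega))]
    have h1 := hst' j1 hj (by omega)
    have h2 := hlh j1 hj (by omega)
    have h3 := hlh (j1 + 1) (by omega) (by omega)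
    have h4 := fun i (h : i0 ≤ i) (h' : i ≤ i1) => hno i j1 h h' hj (by omega)
    have h5 := fun i (h : i0 ≤ i) (h' : i ≤ i1) => hno i (j1 + 1) h h' (by omega) (by omega)
    rcases h1 with ⟨h6, h7 | h7⟩ | ⟨h6, h7 | h7⟩
    · rw [h6, h7]
      congr 1
      refine hc_up_left x y i0 i1 _ _ fun i hi hi' => ?_
      have := h5 i hi hi'
      rw [h6, h7] at this
      exact this
    · rw [h6, h7]
      congr 1
      have h8 := hc_up_left x y i0 i1 (u j1) (v j1 - 1) (fun i hi hi' => by
        have := h4 i hi hi'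
        intro h
        exact this ⟨by omega, by omega⟩)
      rw [h8, sub_add_cancel]
    · rw [h6, h7]
      have h8 := hcCol x y i0 i1 h01 hst (u j1) (v j1) (fun i hi hi' => by
        have := h5 i hi hi'
        rw [h6, h7] at this
        exact this)
      rw [if_neg (by omega), if_neg (by omega)] at h8
      omega
    · rw [h6, h7]
      have h8 := hcCol x y i0 i1 h01 hst (u j1 - 1) (v j1) (fun i hi hi' => by
        have := h4 i hi hi'
        intro h
        exact this ⟨by omega, h.2⟩)
      rw [if_neg (by omega), if_neg (by omega)] at h8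
      have e1 : u j1 - 1 + 1 = u j1 := by ring
      rw [e1] at h8
      omega

end Pool.Agent.Helper68.SAW2
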